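import Pool.Agent.H132FD.Last

/-! # MP_0d5181_co, Q1: fractional dilates are approximated by finite sets of integers

For every fractional set `α` (a function `ℤ → [0, 1]` with finite support) of size larger than `1`,
every `N` and every `ε > 0` there is a finite set `S` of at least two integers such that
`log ‖α + k·α‖ / log ‖α‖` and `log |S + k·S| / log |S|` differ by less than `ε` for all integers
`k` with `1 ≤ |k| ≤ N`. -/

set_option autoImplicit false

open Finset Filter Topology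

namespace Pool.Agent.Results.MP_0d5181_co.FiniteSetsSuffice

open Pool.Agent.H132FD

/-- the size of a fractional dilate, the infimum of `∑ γ(n)^p` over `0 < p < 1` -/
noncomputable def size (γ : ℤ → ℝ) : ℝ := ⨅ p : Set.Ioo (0 : ℝ) 1, ∑' n : ℤ, γ n ^ (p : ℝ)

/-- the fractional dilate `α + k·α`: at `n` the sum of `α(i) α(j)` over the pairs `(i, j)` of
integers with `i + k j = n` -/
noncomputable def dilate (α : ℤ → ℝ) (k n : ℤ) : ℝ :=
  ∑' t : {t : ℤ × ℤ // t.1 + k * t.2 = n}, α t.1.1 * α t.1.2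

/-- the set `S + k·S` of the integers `a + k b` with `a` and `b` in `S` -/
def sumset (S : Finset ℤ) (k : ℤ) : Finset ℤ := (S ×ˢ S).image fun t => t.1 + k * t.2

theorem size_eq {C : Type} [Fintype C] (γ : ℤ → ℝ) (g : C → ℤ) (hg : Function.Injective g)
    (hs : ∀ n, γ n ≠ 0 → n ∈ Set.range g) :
    size γ = ⨅ p : Set.Ioo (0 : ℝ) 1, F (fun c => γ (g c)) p := by
  unfold size
  refine iInf_congr fun p => ?_
  rw [← hg.tsum_eq (f := fun n => γ n ^ (p : ℝ)), tsum_fintype]
  · rfl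
  · intro n hn
    apply hs
    intro h
    apply hn
    simp only [h]
    exact Real.zero_rpow p.2.1.ne'

theorem size_frac {A : Type} [Fintype A] [Nonempty A] (γ : ℤ → ℝ) (g : A → ℤ)
    (hg : Function.Injective g) (hs : ∀ n, γ n ≠ 0 → n ∈ Set.range g) (hpos : ∀ a, 0 < γ (g a))
    (hle : ∀ a, γ (g a) ≤ 1) : size γ = ∑ a, γ (g a) := by
  rw [size_eq γ g hg hs, ciInf_F (fun a => γ (g a)) hpos 1 zero_le_one le_rfl]
  · simp [F]
  · intro p' h0 h1
    exact sum_le_sum fun a _ => Real.rpow_le_rpow_of_exponent_ge (hpos a) (hle a) h1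

theorem dilate_eq {A : Type} [Fintype A] [DecidableEq A] (α : ℤ → ℝ) (ι : A → ℤ)
    (hι : Function.Injective ι) (hs : ∀ n, α n ≠ 0 → n ∈ Set.range ι) (k n : ℤ) :
    dilate α k n = ∑ w ∈ univ.filter (fun w : A × A => ι w.1 + k * ι w.2 = n),
      α (ι w.1) * α (ι w.2) := by
  refine (_root_.tsum_subtype {t : ℤ × ℤ | t.1 + k * t.2 = n} fun t => α t.1 * α t.2).trans ?_
  rw [← (hι.prodMap hι).tsum_eq, tsum_fintype, sum_filter]
  · refine sum_congr rfl fun w _ => ?_
    simp only [Set.indicator, Set.mem_ofPred_eq, Prod.map]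
  · intro t ht
    have h1 : α t.1 * α t.2 ≠ 0 := by
      intro h
      apply ht
      simp only [Set.indicator, h, ite_self]
    obtain ⟨a, ha⟩ := hs _ (left_ne_zero_of_mul h1)
    obtain ⟨b, hb⟩ := hs _ (right_ne_zero_of_mul h1)
    exact ⟨(a, b), Prod.ext ha hb⟩

theorem result (α : ℤ → ℝ) (h0 : ∀ n, 0 ≤ α n) (h1 : ∀ n, α n ≤ 1)
    (hfin : (Function.support α).Finite) (hsize : 1 < size α) (N : ℕ) (ε : ℝ) (hε : 0 < ε) :
    ∃ S : Finset ℤ, 2 ≤ S.card ∧ ∀ k : ℤ, 1 ≤ |k| → |k| ≤ N →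
      |Real.log (size (dilate α k)) / Real.log (size α) -
        Real.log ((sumset S k).card : ℝ) / Real.log (S.card : ℝ)| < ε := by
  classical
  let A : Type := {n : ℤ // α n ≠ 0}
  let _ : Fintype A := hfin.fintype
  let ι : A → ℤ := Subtype.val
  have hι : Function.Injective ι := Subtype.val_injective
  have hs : ∀ n, α n ≠ 0 → n ∈ Set.range ι := fun n hn => ⟨⟨n, hn⟩, rfl⟩
  have hpos : ∀ a : A, 0 < α (ι a) := fun a => lt_of_le_of_ne (h0 _) (Ne.symm a.2)
  have hne : Nonempty A := by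
    by_contra hA
    rw [not_nonempty_iff] at hA
    rw [size_eq α ι hι hs] at hsize
    simp only [F, univ_eq_empty, sum_empty, Real.iInf_const_zero] at hsize
    linarith
  have hsz : size α = ∑ a, α (ι a) := size_frac α ι hι hs hpos fun a => h1 _
  have hbet : ∀ k : ℤ, ∀ c : Cs ι k, dilate α k c.1 = bet (fun a => α (ι a)) (kap ι k) c := by
    intro k c
    rw [dilate_eq α ι hι hs, bet]
    refine sum_congr ?_ fun _ _ => rfl
    ext w
    simp only [mem_filter, mem_univ, true_and, kap, Subtype.ext_iff]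
  have hbpos : ∀ k : ℤ, ∀ c : Cs ι k, 0 < bet (fun a => α (ι a)) (kap ι k) c := by
    intro k c
    obtain ⟨w, hw⟩ := kap_surj ι k c
    exact sum_pos (fun w _ => mul_pos (hpos _) (hpos _)) ⟨w, by simp [hw]⟩
  have hdil : ∀ k : ℤ, size (dilate α k) =
      ⨅ p : Set.Ioo (0 : ℝ) 1, F (bet (fun a => α (ι a)) (kap ι k)) p := by
    intro k
    rw [size_eq (dilate α k) (fun c : Cs ι k => c.1) Subtype.val_injective]
    · have : (fun c : Cs ι k => dilate α k c.1) = bet (fun a => α (ι a)) (kap ι k) :=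
        funext fun c => hbet k c
      rw [this]
    · intro n hn
      rw [dilate_eq α ι hι hs] at hn
      obtain ⟨w, hw, _⟩ := exists_ne_zero_of_sum_ne_zero hn
      exact ⟨⟨n, mem_image.2 ⟨w, mem_univ _, (mem_filter.1 hw).2⟩⟩, rfl⟩
  have hdpos : ∀ k : ℤ, 0 < size (dilate α k) := by
    intro k
    have : Nonempty (Cs ι k) := ⟨kap ι k (hne.some, hne.some)⟩
    obtain ⟨p, p0, p1, pmin, _⟩ := vari _ (hbpos k)
    rw [hdil, ciInf_F _ (hbpos k) p p0 p1 pmin]
    exact F_pos _ (hbpos k) p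
  obtain ⟨S, hS, hS2⟩ := approx ι hι (fun a => α (ι a)) hpos (fun a => h1 _) (hsz ▸ hsize)
    ((Finset.Icc (-(N : ℤ)) N).erase 0) (fun k hk => (mem_erase.1 hk).1)
    (fun k => Real.log (size (dilate α k)))
    (fun k _ => by rw [← hdil, Real.exp_log (hdpos k)]) ε hε
  refine ⟨S, hS, fun k hk1 hk2 => ?_⟩
  rw [hsz]
  refine hS2 k (mem_erase.2 ⟨?_, mem_Icc.2 (abs_le.1 hk2)⟩)
  rintro rfl
  simp at hk1

end Pool.Agent.Results.MP_0d5181_co.FiniteSetsSuffice
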